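import Pool.Agent.H46.Sh4

namespace Pool.Agent.Results.MP_7297ca_co.Iff

open Real Pool.Agent.H46.Sh

theorem result (k n : ℕ) (hk : 1 ≤ k) (hn : 3 ≤ n) (hc : Nat.Coprime k n) (θ : ℝ) :
    (∃ ε₀ > 0, ∀ ε ∈ Set.Ioo (0 : ℝ) ε₀, 4 * tan (π / n) < ratio (U k n θ ε)) ↔
      (1 < k ∧ k ≡ 1 [MOD n]) := main k n hk hn hc θ

end Pool.Agent.Results.MP_7297ca_co.Iff
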